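import Mathlib
import Pool.Agent.Q77.ToricGB
import Pool.Agent.Q77.SymStoch

/-!
# A Groebner basis element all of whose decompositions have an entry 2 in every summand
(negative answer to Q1)

For every `n ≥ 4`, every field `k` and every order `≺_{S_n}`, the reduced Groebner basis of
`I_{S_n}` contains an element of degree `3` such that in every decomposition of its matrix into
lattice points of `S_n` every summand has an entry equal to `2`.
-/

open MvPolynomial Pool.Agent.Q77.ToricGB Pool.Agent.Q77.SymStoch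

namespace Pool.Agent.Results.MP_ae75a9_co.EveryDecomposition

/-- For every `n ≥ 4` and every field: admissible orders exist, and for every one of them there is
exactly one reduced Groebner basis of `I_{S_n}`, and it contains a binomial `g` of degree `3`, with
matrix `A`, such that decompositions `A = M_1 + … + M_d` into lattice points exist, every such
decomposition has `d = 3`, and each of its summands has an entry equal to `2`. -/
theorem result (n : ℕ) (hn : 4 ≤ n) (k : Type) [Field k] :
    (∃ r : Pt n → Pt n → Prop, Admissible r) ∧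
    ∀ (r : Pt n → Pt n → Prop) (hr : Admissible r),
      ∃ G : Set (MvPolynomial (Pt n) k),
        IsReducedGroebner (grevlex r hr.total) (toricIdeal k n) G ∧
        (∀ G', IsReducedGroebner (grevlex r hr.total) (toricIdeal k n) G' → G' = G) ∧
        ∃ g ∈ G, ∃ A : Matrix (Fin n) (Fin n) ℕ, HasMatrix g A 3 ∧
          (∃ M : Fin 3 → Pt n, ∑ s, (M s).1 = A) ∧
          ∀ (d : ℕ) (M : Fin d → Pt n), ∑ s, (M s).1 = A →
            d = 3 ∧ ∀ s, ∃ i j, (M s).1 i j = 2 := by
  classical
  refine ⟨exists_admissible n, fun r hr => ?_⟩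
  obtain ⟨G, hG, huniq, g, hg, hA⟩ := main n hn k r hr
  have hab : (⟨0, by omega⟩ : Fin n) ≠ ⟨1, by omega⟩ := by simp [Fin.ext_iff]
  have hac : (⟨0, by omega⟩ : Fin n) ≠ ⟨2, by omega⟩ := by simp [Fin.ext_iff]
  have hbc : (⟨1, by omega⟩ : Fin n) ≠ ⟨2, by omega⟩ := by simp [Fin.ext_iff]
  refine ⟨G, hG, huniq, g, hg, A n, hA, ⟨![T ⟨0, by omega⟩ ⟨1, by omega⟩,
    T ⟨0, by omega⟩ ⟨2, by omega⟩, T ⟨1, by omega⟩ ⟨2, by omega⟩], ?_⟩, ?_⟩
  · ext x y
    rw [Fin.sum_univ_three, Matrix.add_apply, Matrix.add_apply]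
    have h3 : ∀ z : Fin n, (z = ⟨0, by omega⟩ ∨ z = ⟨1, by omega⟩ ∨ z = ⟨2, by omega⟩) ↔
        z.val < 3 := by
      intro z
      simp only [Fin.ext_iff]
      omega
    have := sum_T hab hac hbc x y
    simp only [aFun, h3] at this
    exact this
  · intro d M hM
    -- the row of an index at least three
    have hrow : ∀ s, ∀ j : Fin n, j ≠ ⟨3, by omega⟩ → (M s).1 ⟨3, by omega⟩ j = 0 := by
      intro s j hj
      have h1 : (∑ s, (M s).1) ⟨3, by omega⟩ j = 0 := by
        rw [hM]
        simp [A, Ne.symm hj]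
      rw [Matrix.sum_apply] at h1
      exact (Finset.sum_eq_zero_iff.1 h1) s (Finset.mem_univ s)
    have h33 : ∀ s, (M s).1 ⟨3, by omega⟩ ⟨3, by omega⟩ = 2 := by
      intro s
      have h1 := (M s).2.2 ⟨3, by omega⟩
      rw [Finset.sum_eq_single (⟨3, by omega⟩ : Fin n)] at h1
      · exact h1
      · intro j _ hj
        exact hrow s j hj
      · intro h; exact absurd (Finset.mem_univ _) h
    refine ⟨?_, fun s => ⟨_, _, h33 s⟩⟩
    have h1 : (∑ s, (M s).1) ⟨3, by omega⟩ ⟨3, by omega⟩ = 6 := by
      rw [hM]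
      simp [A]
    rw [Matrix.sum_apply, Finset.sum_congr rfl (fun s _ => h33 s)] at h1
    simp at h1
    omega

end Pool.Agent.Results.MP_ae75a9_co.EveryDecomposition
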